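import Mathlib
import Pool.Agent.W302.Pol.Data

/-!
# MP_1940b6_co: a fully transitive, equivelar, self-dual polyhedron without a polarity

The polyhedron has 9 vertices, 36 edges and 9 faces, is of type {8, 8}, and its
automorphism group is transitive on the vertices, on the edges and on the faces.
-/

namespace Pool.Agent.Results.MP_1940b6_co.NoPolarity

/-! ## Definitions used in the statement -/

/-- `P` with rank function `rk` is an abstract polyhedron (abstract polytope of rank 3):
`rk` is strictly monotone onto `{-1,0,1,2,3}`; there are a unique least and a unique greatest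
face; every maximal chain (flag) has exactly 5 elements; the diamond condition holds; and any
two flags `Φ, Ψ` are joined by a sequence of flags, each differing from the next in exactly one
face and each containing `Φ ∩ Ψ`. -/
structure IsAbstractPolyhedron (P : Type) [PartialOrder P] (rk : P → ℤ) : Prop where
  rank_strictMono : StrictMono rk
  rank_onto : Set.range rk = {-1, 0, 1, 2, 3}
  least : ∃! b : P, ∀ x, b ≤ x
  greatest : ∃! t : P, ∀ x, x ≤ t
  card_flag : ∀ Φ : Flag P, (Φ : Set P).ncard = 5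
  diamond : ∀ (F G : P) (j : ℤ), F ≤ G → rk F = j - 1 → rk G = j + 1 →
    {H : P | rk H = j ∧ F ≤ H ∧ H ≤ G}.ncard = 2
  strongly_connected : ∀ Φ Ψ : Flag P, Relation.ReflTransGen
    (fun A B : Flag P => ((A : Set P) \ B).ncard = 1 ∧ ((B : Set P) \ A).ncard = 1 ∧
      (Φ : Set P) ∩ Ψ ⊆ A ∧ (Φ : Set P) ∩ Ψ ⊆ B) Φ Ψ

/-- The faces in `A` and the faces in `B` are the vertices and the edges of an `n`-gon:
`A = {a i}`, `B = {b i}` with `i` in `ℤ/n`, and `a i ≤ b j` exactly for `i = j` and
`i = j + 1`. -/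
def IsPolygon {P : Type} [PartialOrder P] (n : ℕ) (A B : Set P) : Prop :=
  ∃ a b : ZMod n → P, Function.Injective a ∧ Function.Injective b ∧
    Set.range a = A ∧ Set.range b = B ∧ ∀ i j, a i ≤ b j ↔ (i = j ∨ i = j + 1)

/-- Equivelar of type `{p, q}`: every 2-face is a `p`-gon and every vertex-figure is
a `q`-gon. -/
def IsEquivelar {P : Type} [PartialOrder P] (rk : P → ℤ) (p q : ℕ) : Prop :=
  (∀ F, rk F = 2 → IsPolygon p {x : P | rk x = 0 ∧ x ≤ F} {x : P | rk x = 1 ∧ x ≤ F}) ∧
  (∀ v, rk v = 0 → IsPolygon q {x : P | rk x = 1 ∧ v ≤ x} {x : P | rk x = 2 ∧ v ≤ x})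

/-- A duality: a bijection of the set of faces that reverses the order. -/
def IsDuality {P : Type} [PartialOrder P] (δ : P ≃ P) : Prop :=
  ∀ F G : P, F ≤ G ↔ δ G ≤ δ F

/-- A polarity: a duality of period 2. -/
def IsPolarity {P : Type} [PartialOrder P] (δ : P ≃ P) : Prop :=
  IsDuality δ ∧ ∀ F : P, δ (δ F) = F

/-- Fully transitive: the group of order automorphisms is transitive on the faces of each
rank. -/
def IsFullyTransitive {P : Type} [PartialOrder P] (rk : P → ℤ) : Prop :=
  ∀ F G : P, rk F = rk G → ∃ φ : P ≃o P, φ F = G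


/-! ## Proofs -/

open Pool.Agent.W302.Pol

theorem eq_of_comp {x y : Pt} (h : x ≤ y ∨ y ≤ x) (hr : rn x = rn y) : x = y := by
  by_contra hne
  rcases h with h | h
  · exact absurd (c_rank_mono x y h hne) (by omega)
  · exact absurd (c_rank_mono y x h (Ne.symm hne)) (by omega)

theorem rn_le_of_le {x y : Pt} (h : x ≤ y) : rn x ≤ rn y := by
  by_cases hxy : x = y
  · rw [hxy]
  · exact (c_rank_mono x y h hxy).le

theorem le_of_rn {x y : Pt} (h : x ≤ y ∨ y ≤ x) (hr : rn x < rn y) : x ≤ y := by
  rcases h with h | h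
  · exact h
  · exact absurd (rn_le_of_le h) (by omega)

theorem bot_mem (Φ : Flag Pt) : pBot ∈ Φ :=
  Flag.mem_iff_forall_le_or_ge.2 fun b _ => Or.inl (c_bot b)

theorem top_mem (Φ : Flag Pt) : pTop ∈ Φ :=
  Flag.mem_iff_forall_le_or_ge.2 fun b _ => Or.inr (c_top b)

theorem rn_bot : rn pBot = 0 := by decide +kernel
theorem rn_top : rn pTop = 4 := by decide +kernel

theorem exists_rank (Φ : Flag Pt) (r : ℕ) (hr : r ≤ 4) : ∃ x ∈ Φ, rn x = r := by
  by_contra hcon
  push Not at hcon
  have h0 : r ≠ 0 := fun h => hcon pBot (bot_mem Φ) (by rw [rn_bot, h])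
  have h4 : r ≠ 4 := fun h => hcon pTop (top_mem Φ) (by rw [rn_top, h])
  obtain ⟨a, ha, hamax⟩ := Set.exists_max_image {x : Pt | x ∈ Φ ∧ rn x < r} rn
    (Set.toFinite _) ⟨pBot, bot_mem Φ, by rw [rn_bot]; omega⟩
  obtain ⟨b, hb, hbmin⟩ := Set.exists_min_image {x : Pt | x ∈ Φ ∧ r < rn x} rn
    (Set.toFinite _) ⟨pTop, top_mem Φ, by rw [rn_top]; omega⟩
  have hab : a ≤ b := le_of_rn (Flag.le_or_le Φ ha.1 hb.1) (by have := ha.2; have := hb.2; omega)
  obtain ⟨z, hz, haz, hzb⟩ := c_interp a b hab ⟨r, by omega⟩ ha.2 hb.2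
  have hzm : z ∈ Φ := by
    refine Flag.mem_iff_forall_le_or_ge.2 fun c hc => ?_
    rcases lt_trichotomy (rn c) r with h | h | h
    · right
      have h1 : rn c ≤ rn a := hamax c ⟨hc, h⟩
      have hca : c ≤ a := by
        by_cases he : rn c = rn a
        · exact (eq_of_comp (Flag.le_or_le Φ hc ha.1) he).le
        · exact le_of_rn (Flag.le_or_le Φ hc ha.1) (by omega)
      exact hca.trans haz
    · exact absurd h (hcon c hc)
    · left
      have h1 : rn b ≤ rn c := hbmin c ⟨hc, h⟩
      have hbc : b ≤ c := by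
        by_cases he : rn b = rn c
        · exact (eq_of_comp (Flag.le_or_le Φ hb.1 hc) he).le
        · exact le_of_rn (Flag.le_or_le Φ hb.1 hc) (by omega)
      exact hzb.trans hbc
  exact hcon z hzm hz

theorem mem_ff {k : Fin 144} {x : Pt} :
    x ∈ ff k ↔ x = pBot ∨ x = pv k ∨ x = pe k ∨ x = pf k ∨ x = pTop := by
  simp [ff]

theorem ff_comp (k : Fin 144) {x y : Pt} (hx : x ∈ ff k) (hy : y ∈ ff k) : x ≤ y ∨ y ≤ x := by
  have h1 := c_le_ve k
  have h2 := c_le_ef k
  have h3 := h1.trans h2
  rw [mem_ff] at hx hy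
  rcases hx with rfl | rfl | rfl | rfl | rfl
  · exact Or.inl (c_bot y)
  · rcases hy with rfl | rfl | rfl | rfl | rfl
    · exact Or.inr (c_bot _)
    · exact Or.inl le_rfl
    · exact Or.inl h1
    · exact Or.inl h3
    · exact Or.inl (c_top _)
  · rcases hy with rfl | rfl | rfl | rfl | rfl
    · exact Or.inr (c_bot _)
    · exact Or.inr h1
    · exact Or.inl le_rfl
    · exact Or.inl h2
    · exact Or.inl (c_top _)
  · rcases hy with rfl | rfl | rfl | rfl | rfl
    · exact Or.inr (c_bot _)
    · exact Or.inr h3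
    · exact Or.inr h2
    · exact Or.inl le_rfl
    · exact Or.inl (c_top _)
  · exact Or.inr (c_top y)

theorem ff_rank (k : Fin 144) (r : ℕ) (hr : r ≤ 4) : ∃ x ∈ ff k, rn x = r := by
  have : r = 0 ∨ r = 1 ∨ r = 2 ∨ r = 3 ∨ r = 4 := by omega
  rcases this with h | h | h | h | h
  · exact ⟨pBot, mem_ff.2 (by tauto), by rw [rn_bot, h]⟩
  · exact ⟨pv k, mem_ff.2 (by tauto), by rw [c_rn_pv, h]⟩
  · exact ⟨pe k, mem_ff.2 (by tauto), by rw [c_rn_pe, h]⟩
  · exact ⟨pf k, mem_ff.2 (by tauto), by rw [c_rn_pf, h]⟩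
  · exact ⟨pTop, mem_ff.2 (by tauto), by rw [rn_top, h]⟩

/-- the flag with index `k` -/
def mk (k : Fin 144) : Flag Pt where
  carrier := (ff k : Set Pt)
  Chain' := by
    intro x hx y hy _
    exact ff_comp k (Finset.mem_coe.1 hx) (Finset.mem_coe.1 hy)
  max_chain' := by
    intro t ht hsub
    refine Set.Subset.antisymm hsub ?_
    intro x hx
    obtain ⟨y, hy, hyr⟩ := ff_rank k (rn x) (c_rn_le x)
    have hyt : y ∈ t := hsub (Finset.mem_coe.2 hy)
    have : y = x := by
      by_contra hne
      exact hne (eq_of_comp (ht hyt hx hne) hyr)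
    rw [← this]
    exact Finset.mem_coe.2 hy

theorem coe_mk (k : Fin 144) : (mk k : Set Pt) = (ff k : Set Pt) := rfl

theorem flag_eq (Φ : Flag Pt) : ∃ k, Φ = mk k := by
  obtain ⟨v, hv, hvr⟩ := exists_rank Φ 1 (by norm_num)
  obtain ⟨e, he, her⟩ := exists_rank Φ 2 (by norm_num)
  obtain ⟨f, hf, hfr⟩ := exists_rank Φ 3 (by norm_num)
  obtain ⟨k, hk1, hk2, hk3⟩ := c_index v hvr e her
    (le_of_rn (Flag.le_or_le Φ hv he) (by omega)) f hfr
    (le_of_rn (Flag.le_or_le Φ he hf) (by omega))
  refine ⟨k, Flag.ext ?_⟩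
  rw [coe_mk]
  apply Eq.symm
  have hsub : (ff k : Set Pt) ⊆ (Φ : Set Pt) := by
    intro x hx
    rw [Finset.mem_coe, mem_ff] at hx
    rw [Flag.mem_coe_iff]
    rcases hx with rfl | rfl | rfl | rfl | rfl
    · exact bot_mem Φ
    · rw [hk1]; exact hv
    · rw [hk2]; exact he
    · rw [hk3]; exact hf
    · exact top_mem Φ
  exact (mk k).max_chain' Φ.Chain' hsub

theorem card_ff (k : Fin 144) : (ff k).card = 5 := by
  have h1 := c_rn_pv k
  have h2 := c_rn_pe k
  have h3 := c_rn_pf k
  have h4 := rn_bot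
  have h5 := rn_top
  have key : ∀ x y : Pt, rn x ≠ rn y → x ≠ y := fun x y h e => h (by rw [e])
  rw [ff, Finset.card_insert_of_notMem, Finset.card_insert_of_notMem,
    Finset.card_insert_of_notMem, Finset.card_insert_of_notMem, Finset.card_singleton]
  · simp only [Finset.mem_singleton]
    exact key _ _ (by omega)
  · simp only [Finset.mem_insert, Finset.mem_singleton, not_or]
    exact ⟨key _ _ (by omega), key _ _ (by omega)⟩
  · simp only [Finset.mem_insert, Finset.mem_singleton, not_or]
    exact ⟨key _ _ (by omega), key _ _ (by omega), key _ _ (by omega)⟩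
  · simp only [Finset.mem_insert, Finset.mem_singleton, not_or]
    exact ⟨key _ _ (by omega), key _ _ (by omega), key _ _ (by omega), key _ _ (by omega)⟩

/-! strong connectivity -/

theorem ff_inter {K : Fin 8} {k l x : Fin 144}
    (hK : ∀ b : Pt, b ∈ ff k → b ∈ ff l → (b = pBot ∨ b = pTop ∨
      (K.val % 2 = 1 ∧ b = pv k) ∨ (K.val / 2 % 2 = 1 ∧ b = pe k) ∨ (K.val / 4 = 1 ∧ b = pf k)))
    (hx : agree K k x) : (mk k : Set Pt) ∩ (mk l : Set Pt) ⊆ (mk x : Set Pt) := by
  rintro b ⟨hbk, hbl⟩
  rw [coe_mk, Finset.mem_coe] at hbk hbl ⊢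
  rw [mem_ff]
  rcases hK b hbk hbl with h | h | ⟨h, hb⟩ | ⟨h, hb⟩ | ⟨h, hb⟩
  · tauto
  · tauto
  · rw [hb, hx.1 h]; tauto
  · rw [hb, hx.2.1 h]; tauto
  · rw [hb, hx.2.2 h]; tauto

/-- the step relation of the definition -/
def R (Φ Ψ : Flag Pt) (A B : Flag Pt) : Prop :=
  ((A : Set Pt) \ B).ncard = 1 ∧ ((B : Set Pt) \ A).ncard = 1 ∧
      (Φ : Set Pt) ∩ Ψ ⊆ A ∧ (Φ : Set Pt) ∩ Ψ ⊆ B

theorem R_symm (Φ Ψ A B : Flag Pt) (h : R Φ Ψ A B) : R Φ Ψ B A := ⟨h.2.1, h.1, h.2.2.2, h.2.2.1⟩

theorem agree_trans {K : Fin 8} {k l m : Fin 144} (h1 : agree K k l) (h2 : agree K l m) :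
    agree K k m :=
  ⟨fun h => (h1.1 h).trans (h2.1 h), fun h => (h1.2.1 h).trans (h2.2.1 h),
    fun h => (h1.2.2 h).trans (h2.2.2 h)⟩

theorem agree_symm {K : Fin 8} {k l : Fin 144} (h1 : agree K k l) : agree K l k :=
  ⟨fun h => (h1.1 h).symm, fun h => (h1.2.1 h).symm, fun h => (h1.2.2 h).symm⟩

theorem step_R {K : Fin 8} {k l x : Fin 144} (hI : ∀ x, agree K k x →
    (mk k : Set Pt) ∩ (mk l : Set Pt) ⊆ (mk x : Set Pt)) (hx : agree K k x) :
    Relation.ReflTransGen (R (mk k) (mk l)) (mk x) (mk (st K x)) := by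
  have hst : agree K k (st K x) := agree_trans hx (c_agree_st K x)
  by_cases hp : par K x = 3
  · have : st K x = x := by simp [st, hp]
    rw [this]
  · have hlt : par K x < 3 := by have := c_par K x; omega
    have he : st K x = s (par K x) x := by simp [st, hp]
    have h1 := c_sdiff x ⟨par K x, hlt⟩
    have h2 := c_sdiff (s (par K x) x) ⟨par K x, hlt⟩
    have h3 := c_s_invol x ⟨par K x, hlt⟩
    simp only at h1 h2 h3
    rw [h3] at h2
    refine Relation.ReflTransGen.single ⟨?_, ?_, hI x hx, hI _ hst⟩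
    · rw [he, coe_mk, coe_mk, ← Finset.coe_sdiff, Set.ncard_coe_finset]
      exact h1
    · rw [he, coe_mk, coe_mk, ← Finset.coe_sdiff, Set.ncard_coe_finset]
      exact h2

theorem iter_R {K : Fin 8} {k l : Fin 144} (hI : ∀ x, agree K k x →
    (mk k : Set Pt) ∩ (mk l : Set Pt) ⊆ (mk x : Set Pt)) (n : ℕ) : ∀ x, agree K k x →
    Relation.ReflTransGen (R (mk k) (mk l)) (mk x) (mk (iter K n x)) := by
  induction n with
  | zero => intro x _; exact Relation.ReflTransGen.refl
  | succ n ih =>
    intro x hx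
    exact (step_R hI hx).trans (ih _ (agree_trans hx (c_agree_st K x)))

theorem c_root : ∀ K : Fin 8, ∀ k l : Fin 144, agree K k l → root K k = root K l := by
  intro K k l h
  by_cases hkl : k = l
  · rw [hkl]
  obtain ⟨h1, h2, h3⟩ := h
  fin_cases K
  · exact (c_root0 k).trans (c_root0 l).symm
  · exact (c_root_v k).trans ((congrArg rv (h1 (by norm_num))).trans (c_root_v l).symm)
  · exact (c_root_e k).trans ((congrArg re (h2 (by norm_num))).trans (c_root_e l).symm)
  · rw [c_adj2 k l (h1 (by norm_num)) (h2 (by norm_num)) hkl]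
    exact (c_root_2 k).symm
  · exact (c_root_f k).trans ((congrArg rf (h3 (by norm_num))).trans (c_root_f l).symm)
  · rw [c_adj1 k l (h1 (by norm_num)) (h3 (by norm_num)) hkl]
    exact (c_root_1 k).symm
  · rw [c_adj0 k l (h2 (by norm_num)) (h3 (by norm_num)) hkl]
    exact (c_root_0 k).symm
  · exact absurd (c_flag_inj k l (h1 (by norm_num)) (h2 (by norm_num)) (h3 (by norm_num))) hkl

theorem connected_of_code {K : Fin 8} {k l : Fin 144} (hI : ∀ x, agree K k x →
    (mk k : Set Pt) ∩ (mk l : Set Pt) ⊆ (mk x : Set Pt)) (hl : agree K k l) :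
    Relation.ReflTransGen (R (mk k) (mk l)) (mk k) (mk l) := by
  have h1 := iter_R hI 9 k ⟨fun _ => rfl, fun _ => rfl, fun _ => rfl⟩
  have h2 := iter_R hI 9 l hl
  rw [c_iter] at h1 h2
  rw [← c_root K k l hl] at h2
  have hs : Std.Symm (R (mk k) (mk l)) := ⟨fun A B => R_symm _ _ A B⟩
  exact h1.trans (Relation.ReflTransGen.stdSymm.symm _ _ h2)

theorem connected (k l : Fin 144) :
    Relation.ReflTransGen (R (mk k) (mk l)) (mk k) (mk l) := by
  -- the code of the common faces
  have hb : ∀ b : Pt, b ∈ ff k → b ∈ ff l → (b = pBot ∨ b = pTop ∨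
      (pv k = pv l ∧ b = pv k) ∨ (pe k = pe l ∧ b = pe k) ∨ (pf k = pf l ∧ b = pf k)) := by
    intro b hbk hbl
    have e1 := c_rn_pv k
    have e2 := c_rn_pe k
    have e3 := c_rn_pf k
    have e1' := c_rn_pv l
    have e2' := c_rn_pe l
    have e3' := c_rn_pf l
    have e4 := rn_bot
    have e5 := rn_top
    rw [mem_ff] at hbk hbl
    rcases hbk with h | h | h | h | h
    · exact Or.inl h
    · right; right; left
      refine ⟨?_, h⟩
      rcases hbl with h' | h' | h' | h' | h'
      · exfalso; have : rn b = rn b := rfl; rw [h] at this; rw [← h, h'] at e1; omega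
      · rw [← h, h']
      · exfalso; rw [← h, h'] at e1; omega
      · exfalso; rw [← h, h'] at e1; omega
      · exfalso; rw [← h, h'] at e1; omega
    · right; right; right; left
      refine ⟨?_, h⟩
      rcases hbl with h' | h' | h' | h' | h'
      · exfalso; rw [← h, h'] at e2; omega
      · exfalso; rw [← h, h'] at e2; omega
      · rw [← h, h']
      · exfalso; rw [← h, h'] at e2; omega
      · exfalso; rw [← h, h'] at e2; omega
    · right; right; right; right
      refine ⟨?_, h⟩
      rcases hbl with h' | h' | h' | h' | h'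
      · exfalso; rw [← h, h'] at e3; omega
      · exfalso; rw [← h, h'] at e3; omega
      · exfalso; rw [← h, h'] at e3; omega
      · rw [← h, h']
      · exfalso; rw [← h, h'] at e3; omega
    · exact Or.inr (Or.inl h)
  by_cases h1 : pv k = pv l <;> by_cases h2 : pe k = pe l <;> by_cases h3 : pf k = pf l
  · exact connected_of_code (K := 7)
      (fun x hx => ff_inter (K := 7) (fun b hbk hbl => by
        have := hb b hbk hbl
        simpa [h1, h2, h3] using this) hx)
      ⟨fun _ => h1, fun _ => h2, fun _ => h3⟩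
  · exact connected_of_code (K := 3)
      (fun x hx => ff_inter (K := 3) (fun b hbk hbl => by
        have := hb b hbk hbl
        simpa [h1, h2, h3] using this) hx)
      ⟨fun _ => h1, fun _ => h2, fun h => absurd h (by decide)⟩
  · exact connected_of_code (K := 5)
      (fun x hx => ff_inter (K := 5) (fun b hbk hbl => by
        have := hb b hbk hbl
        simpa [h1, h2, h3] using this) hx)
      ⟨fun _ => h1, fun h => absurd h (by decide), fun _ => h3⟩
  · exact connected_of_code (K := 1)
      (fun x hx => ff_inter (K := 1) (fun b hbk hbl => by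
        have := hb b hbk hbl
        simpa [h1, h2, h3] using this) hx)
      ⟨fun _ => h1, fun h => absurd h (by decide), fun h => absurd h (by decide)⟩
  · exact connected_of_code (K := 6)
      (fun x hx => ff_inter (K := 6) (fun b hbk hbl => by
        have := hb b hbk hbl
        simpa [h1, h2, h3] using this) hx)
      ⟨fun h => absurd h (by decide), fun _ => h2, fun _ => h3⟩
  · exact connected_of_code (K := 2)
      (fun x hx => ff_inter (K := 2) (fun b hbk hbl => by
        have := hb b hbk hbl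
        simpa [h1, h2, h3] using this) hx)
      ⟨fun h => absurd h (by decide), fun _ => h2, fun h => absurd h (by decide)⟩
  · exact connected_of_code (K := 4)
      (fun x hx => ff_inter (K := 4) (fun b hbk hbl => by
        have := hb b hbk hbl
        simpa [h1, h2, h3] using this) hx)
      ⟨fun h => absurd h (by decide), fun h => absurd h (by decide), fun _ => h3⟩
  · exact connected_of_code (K := 0)
      (fun x hx => ff_inter (K := 0) (fun b hbk hbl => by
        have := hb b hbk hbl
        simpa [h1, h2, h3] using this) hx)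
      ⟨fun h => absurd h (by decide), fun h => absurd h (by decide), fun h => absurd h (by decide)⟩

/-! the abstract polyhedron -/

theorem rk_eq {x : Pt} {j : ℤ} {n : ℕ} (hj : j = (n : ℤ) - 1) : rk x = j ↔ rn x = n := by
  unfold rk; omega

theorem isAbstractPolyhedron : IsAbstractPolyhedron Pt rk where
  rank_strictMono := by
    intro x y h
    have := c_rank_mono x y h.le h.ne
    unfold rk; omega
  rank_onto := by
    ext j
    simp only [Set.mem_range, Set.mem_insert_iff, Set.mem_singleton_iff]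
    constructor
    · rintro ⟨x, rfl⟩
      have := c_rn_le x
      unfold rk; omega
    · intro h
      have h1 := c_rn_pv 0
      have h2 := c_rn_pe 0
      have h3 := c_rn_pf 0
      rcases h with h | h | h | h | h
      · exact ⟨pBot, by unfold rk; rw [rn_bot, h]; norm_num⟩
      · exact ⟨pv 0, by unfold rk; rw [h1, h]; norm_num⟩
      · exact ⟨pe 0, by unfold rk; rw [h2, h]; norm_num⟩
      · exact ⟨pf 0, by unfold rk; rw [h3, h]; norm_num⟩
      · exact ⟨pTop, by unfold rk; rw [rn_top, h]; norm_num⟩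
  least := ⟨pBot, c_bot, fun y hy => le_antisymm (hy _) (c_bot y)⟩
  greatest := ⟨pTop, c_top, fun y hy => le_antisymm (c_top y) (hy _)⟩
  card_flag := by
    intro Φ
    obtain ⟨k, rfl⟩ := flag_eq Φ
    rw [coe_mk, Set.ncard_coe_finset]
    exact card_ff k
  diamond := by
    intro F G j hFG hF hG
    have h1 : rn G = rn F + 2 := by unfold rk at hF hG; omega
    have h2 := c_diamond F G hFG h1
    rw [← h2, ← Set.ncard_coe_finset]
    congr 1
    ext H
    simp only [Set.mem_ofPred_eq, Finset.coe_filter, Finset.mem_univ, true_and]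
    have : rk H = j ↔ rn H = rn F + 1 := by unfold rk at hF ⊢; omega
    rw [this]
  strongly_connected := by
    intro Φ Ψ
    obtain ⟨k, rfl⟩ := flag_eq Φ
    obtain ⟨l, rfl⟩ := flag_eq Ψ
    exact connected k l

theorem isEquivelar : IsEquivelar rk 8 8 := by
  constructor
  · intro F hF
    have hF' : rn F = 3 := by unfold rk at hF; omega
    obtain ⟨f, rfl⟩ := c_face F hF'
    refine ⟨fun i => fa f i, fun i => fb f i, fun i j h => ((c_fab f i j).1 h),
      fun i j h => ((c_fab f i j).2.1 h), ?_, ?_, fun i j => (c_fab f i j).2.2⟩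
    · ext x
      have := c_fa f x
      simp only [Set.mem_range, Set.mem_ofPred_eq]
      rw [rk_eq (n := 1) (by norm_num), this]
      rfl
    · ext x
      have := c_fb f x
      simp only [Set.mem_range, Set.mem_ofPred_eq]
      rw [rk_eq (n := 2) (by norm_num), this]
      rfl
  · intro v hv
    have hv' : rn v = 1 := by unfold rk at hv; omega
    obtain ⟨f, rfl⟩ := c_vert v hv'
    refine ⟨fun i => va f i, fun i => vb f i, fun i j h => ((c_vab f i j).1 h),
      fun i j h => ((c_vab f i j).2.1 h), ?_, ?_, fun i j => (c_vab f i j).2.2⟩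
    · ext x
      have := c_va f x
      simp only [Set.mem_range, Set.mem_ofPred_eq]
      rw [rk_eq (n := 2) (by norm_num), this]
      rfl
    · ext x
      have := c_vb f x
      simp only [Set.mem_range, Set.mem_ofPred_eq]
      rw [rk_eq (n := 3) (by norm_num), this]
      rfl

/-! self-duality -/

def dualEquiv : Pt ≃ Pt where
  toFun := dl
  invFun := dli
  left_inv x := (c_dl_inv x).1
  right_inv x := (c_dl_inv x).2

theorem isDuality_dualEquiv : IsDuality dualEquiv := fun F G => c_dl F G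

/-! full transitivity -/

def autG0 : Pt ≃o Pt where
  toFun := g0
  invFun := h0
  left_inv x := (c_g0_inv x).1
  right_inv x := (c_g0_inv x).2
  map_rel_iff' := by intro a b; exact c_g0 a b

def autG1 : Pt ≃o Pt where
  toFun := g1
  invFun := h1
  left_inv x := (c_g1_inv x).1
  right_inv x := (c_g1_inv x).2
  map_rel_iff' := by intro a b; exact c_g1 a b

theorem exists_st2 (x : Pt) : ∃ φ : Pt ≃o Pt, φ x = st2 x := by
  unfold st2
  split_ifs
  · exact ⟨autG0.symm, rfl⟩
  · exact ⟨autG1.symm, rfl⟩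
  · exact ⟨OrderIso.refl Pt, rfl⟩

theorem exists_itr2 (n : ℕ) : ∀ x : Pt, ∃ φ : Pt ≃o Pt, φ x = itr2 n x := by
  induction n with
  | zero => intro x; exact ⟨OrderIso.refl Pt, rfl⟩
  | succ n ih =>
    intro x
    obtain ⟨φ, hφ⟩ := exists_st2 x
    obtain ⟨ψ, hψ⟩ := ih (st2 x)
    exact ⟨φ.trans ψ, by rw [OrderIso.trans_apply, hφ, hψ]; rfl⟩

theorem isFullyTransitive : IsFullyTransitive rk := by
  intro F G h
  have hr : rn F = rn G := by unfold rk at h; omega
  obtain ⟨φ, hφ⟩ := exists_itr2 7 F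
  obtain ⟨ψ, hψ⟩ := exists_itr2 7 G
  refine ⟨φ.trans ψ.symm, ?_⟩
  rw [OrderIso.trans_apply, hφ, OrderIso.symm_apply_eq, hψ, c_trans, c_trans, hr]

/-! no polarity -/

theorem rn_dual {δ : Pt ≃ Pt} (hδ : IsDuality δ) (x : Pt) : rn (δ x) = 4 - rn x := by
  apply c_cnt
  unfold below above
  refine Finset.card_equiv δ ?_
  intro i
  simp only [Finset.mem_filter, Finset.mem_univ, true_and]
  exact hδ i x

theorem exists_D {δ : Pt ≃ Pt} (hδ : IsDuality δ) (k : Fin 144) :
    ∃ l : Fin 144, pv l = δ (pf k) ∧ pe l = δ (pe k) ∧ pf l = δ (pv k) := by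
  refine c_index _ ?_ _ ?_ ((hδ _ _).1 (c_le_ef k)) _ ?_ ((hδ _ _).1 (c_le_ve k))
  · rw [rn_dual hδ, c_rn_pf]
  · rw [rn_dual hδ, c_rn_pe]
  · rw [rn_dual hδ, c_rn_pv]

theorem no_polarity (δ : Pt ≃ Pt) (hδ : IsDuality δ) (h2 : ∀ x, δ (δ x) = x) : False := by
  choose D hD1 hD2 hD3 using exists_D hδ
  have hinj : ∀ k l, D k = D l → k = l := by
    intro k l h
    apply c_flag_inj
    · apply δ.injective; rw [← hD3, ← hD3, h]
    · apply δ.injective; rw [← hD2, ← hD2, h]
    · apply δ.injective; rw [← hD1, ← hD1, h]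
  have hs0 : ∀ k, D (s 0 k) = s 2 (D k) := by
    intro k
    obtain ⟨a1, a2, a3⟩ := c_sh0 k
    apply c_adj2
    · rw [hD1, hD1, a2]
    · rw [hD2, hD2, a1]
    · exact fun h => a3 (hinj _ _ h).symm
  have hs1 : ∀ k, D (s 1 k) = s 1 (D k) := by
    intro k
    obtain ⟨a1, a2, a3⟩ := c_sh1 k
    apply c_adj1
    · rw [hD1, hD1, a2]
    · rw [hD3, hD3, a1]
    · exact fun h => a3 (hinj _ _ h).symm
  have hs2 : ∀ k, D (s 2 k) = s 0 (D k) := by
    intro k
    obtain ⟨a1, a2, a3⟩ := c_sh2 k
    apply c_adj0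
    · rw [hD2, hD2, a2]
    · rw [hD3, hD3, a1]
    · exact fun h => a3 (hinj _ _ h).symm
  have hs : ∀ i k, i < 3 → D (s i k) = s (2 - i) (D k) := by
    intro i k hi
    have : i = 0 ∨ i = 1 ∨ i = 2 := by omega
    rcases this with rfl | rfl | rfl
    · exact hs0 k
    · exact hs1 k
    · exact hs2 k
  have hDD : ∀ k, D (D k) = k := by
    intro k
    apply c_flag_inj
    · rw [hD1, hD3, h2]
    · rw [hD2, hD2, h2]
    · rw [hD3, hD1, h2]
  have hT : ∀ n k, iter 0 n k = 0 → D k = T (D 0) n k := by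
    intro n
    induction n with
    | zero => intro k hk; rw [show k = 0 from hk]; rfl
    | succ n ih =>
      intro k hk
      by_cases hp : par 0 k = 3
      · have h3 : st 0 k = k := by simp [st, hp]
        have h4 : ∀ m, iter 0 m k = k := by
          intro m
          induction m with
          | zero => rfl
          | succ m ihm => show iter 0 m (st 0 k) = k; rw [h3]; exact ihm
        have hk0 : k = 0 := by rw [h4] at hk; exact hk
        have hT0 : T (D 0) (n + 1) k = D 0 := by simp [T, hp]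
        rw [hT0, hk0]
      · have hlt : par 0 k < 3 := by have := c_par 0 k; omega
        have h3 : st 0 k = s (par 0 k) k := by simp [st, hp]
        have h4 : T (D 0) (n + 1) k = s (2 - par 0 k) (T (D 0) n (s (par 0 k) k)) := by
          simp [T, hp]
        have hk' : iter 0 n (s (par 0 k) k) = 0 := by
          have : iter 0 (n + 1) k = iter 0 n (st 0 k) := rfl
          rw [this, h3] at hk; exact hk
        have h5 := ih _ hk'
        rw [h4, ← h5, ← hs _ _ hlt]
        have h6 := c_s_invol k ⟨par 0 k, hlt⟩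
        simp only at h6
        rw [h6]
  have hT9 : ∀ k, D k = T (D 0) 9 k := fun k => hT 9 k (by rw [c_iter, c_root0])
  obtain ⟨k, hk⟩ := c_T (D 0)
  apply hk
  rw [← hT9, ← hT9, hDD]

/-- There is a finite abstract polyhedron (56 faces) that is equivelar of type `{8, 8}`,
self-dual and fully transitive, none of whose dualities has period 2. -/
theorem result : ∃ (P : Type) (_ : Fintype P) (_ : PartialOrder P) (rk : P → ℤ),
    IsAbstractPolyhedron P rk ∧ IsEquivelar rk 8 8 ∧ IsFullyTransitive rk ∧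
    (∃ δ : P ≃ P, IsDuality δ) ∧ ¬ ∃ δ : P ≃ P, IsPolarity δ :=
  ⟨Pt, inferInstance, inferInstance, rk, isAbstractPolyhedron, isEquivelar, isFullyTransitive,
    ⟨dualEquiv, isDuality_dualEquiv⟩, fun ⟨δ, h1, h2⟩ => no_polarity δ h1 h2⟩

end Pool.Agent.Results.MP_1940b6_co.NoPolarity
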